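import Pool.Agent.J4H38.GS.Stm5

/-!
# Project GS5, piece (AB): the Abelian part

`F V = e^{-aV} ∫_0^V f e^{au} du` satisfies `q F (V - h) + q I ≤ F V ≤ q F (V - h) + I`, `q = e^{-ah}`, `I = ∫_{V-h}^V f → C h`.
-/

set_option autoImplicit false

namespace Pool.Agent.J4H53.GS

open MeasureTheory Set Filter Topology
open Pool.Agent.J4H38.GS (S_AB)

/-- iteration of `F V ≤ q F (V - h) + B` -/
theorem rec_bound (F : ℝ → ℝ) (h q B V₀ M : ℝ) (hh : 0 < h) (hq0 : 0 ≤ q) (hq1 : q < 1)
    (hrec : ∀ V, V₀ ≤ V → F V ≤ q * F (V - h) + B) (hM : ∀ V, V₀ - h ≤ V → V ≤ V₀ → F V ≤ M)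
    (ε : ℝ) (hε : 0 < ε) : ∀ᶠ V in atTop, F V ≤ B / (1 - q) + ε := by
  obtain ⟨K, hK⟩ : ∃ K : ℝ, K = B / (1 - q) := ⟨_, rfl⟩
  obtain ⟨M', hM'⟩ : ∃ M' : ℝ, M' = max M K := ⟨_, rfl⟩
  have h1q : 0 < 1 - q := by linarith
  have hB : B = (1 - q) * K := by rw [hK]; field_simp
  have hKM : K ≤ M' := by rw [hM']; exact le_max_right _ _
  have hb1 : ∀ n : ℕ, ∀ V, V₀ - h ≤ V → V ≤ V₀ + n * h → F V ≤ M' := by
    intro n
    induction n with
    | zero =>
      intro V h1 h2
      rw [Nat.cast_zero, zero_mul, add_zero] at h2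
      exact (hM V h1 h2).trans (by rw [hM']; exact le_max_left _ _)
    | succ n ih =>
      intro V h1 h2
      push_cast at h2
      by_cases h3 : V ≤ V₀ + n * h
      · exact ih V h1 h3
      · push Not at h3
        have h4 : 0 ≤ (n : ℝ) * h := by positivity
        have h5 := hrec V (by linarith)
        have h6 := ih (V - h) (by linarith) (by linarith)
        have h7 := mul_le_mul_of_nonneg_left h6 hq0
        have h8 : q * M' + B ≤ M' := by
          rw [hB]
          have := mul_le_mul_of_nonneg_left hKM h1q.le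
          linarith
        linarith
  have hb : ∀ V, V₀ - h ≤ V → F V ≤ M' := by
    intro V hV
    obtain ⟨n, hn⟩ := exists_nat_ge ((V - V₀) / h)
    rw [div_le_iff₀ hh] at hn
    exact hb1 n V hV (by linarith)
  have hP : ∀ n : ℕ, ∀ V, V₀ - h + n * h ≤ V → F V - K ≤ q ^ n * (M' - K) := by
    intro n
    induction n with
    | zero =>
      intro V hV
      rw [Nat.cast_zero, zero_mul, add_zero] at hV
      rw [pow_zero, one_mul]
      linarith [hb V hV]
    | succ n ih =>
      intro V hV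
      push_cast at hV
      have h4 : 0 ≤ (n : ℝ) * h := by positivity
      have h5 := hrec V (by linarith)
      have h6 := mul_le_mul_of_nonneg_left (ih (V - h) (by linarith)) hq0
      have e : q ^ (n + 1) * (M' - K) = q * (q ^ n * (M' - K)) := by ring
      rw [e]
      have e2 : q * F (V - h) + B - K = q * (F (V - h) - K) := by rw [hB]; ring
      linarith
  have hlim : Tendsto (fun n : ℕ => q ^ n * (M' - K)) atTop (𝓝 0) := by
    have := (tendsto_pow_atTop_nhds_zero_of_lt_one hq0 hq1).mul_const (M' - K)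
    rwa [zero_mul] at this
  obtain ⟨n, hn⟩ := (hlim.eventually (ge_mem_nhds hε)).exists
  filter_upwards [eventually_ge_atTop (V₀ - h + n * h)] with V hV
  have := hP n V hV
  rw [← hK]
  linarith

theorem t_AB : S_AB := by
  intro f C a hf hf0 ha hC hint hlim
  have hii : ∀ U V : ℝ, 0 ≤ U → U ≤ V → IntervalIntegrable f volume U V := by
    intro U V hU hUV
    have h1 : IntervalIntegrable (fun u => f u * Real.exp (-1 * u)) volume U V := by
      rw [intervalIntegrable_iff_integrableOn_Ioc_of_le hUV]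
      exact (hint 1 one_pos).mono_set (fun u hu => lt_of_le_of_lt hU hu.1)
    have h2 := h1.mul_continuousOn (g := fun u => Real.exp u) (by fun_prop)
    refine h2.congr (fun u _ => ?_)
    change f u * Real.exp (-1 * u) * Real.exp u = f u
    rw [mul_assoc, ← Real.exp_add]
    have : -1 * u + u = 0 := by ring
    rw [this, Real.exp_zero, mul_one]
  have hie : ∀ U V : ℝ, 0 ≤ U → U ≤ V → IntervalIntegrable (fun u => f u * Real.exp (a * u)) volume U V :=
    fun U V hU hUV => (hii U V hU hUV).mul_continuousOn (by fun_prop)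
  obtain ⟨F, hF⟩ : ∃ F : ℝ → ℝ, F = fun V : ℝ => (∫ u in (0 : ℝ)..V, f u * Real.exp (a * u)) / Real.exp (a * V) :=
    ⟨_, rfl⟩
  rw [← hF]
  have hF0 : ∀ V, 0 ≤ V → 0 ≤ F V := by
    intro V hV
    rw [hF]
    exact div_nonneg (intervalIntegral.integral_nonneg hV fun u _ => mul_nonneg (hf0 u) (Real.exp_pos _).le)
      (Real.exp_pos _).le
  -- the recursion
  have hsplit : ∀ h V : ℝ, 0 < h → h ≤ V →
      F V ≤ Real.exp (-(a * h)) * F (V - h) + ∫ u in (V - h)..V, f u ∧
      Real.exp (-(a * h)) * F (V - h) + Real.exp (-(a * h)) * (∫ u in (V - h)..V, f u) ≤ F V := by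
    intro h V hh hV
    have e1 : (∫ u in (0 : ℝ)..V, f u * Real.exp (a * u)) =
        (∫ u in (0 : ℝ)..(V - h), f u * Real.exp (a * u)) + ∫ u in (V - h)..V, f u * Real.exp (a * u) :=
      (intervalIntegral.integral_add_adjacent_intervals (hie 0 (V - h) le_rfl (by linarith))
        (hie (V - h) V (by linarith) (by linarith))).symm
    have e2 : Real.exp (a * (V - h)) = Real.exp (-(a * h)) * Real.exp (a * V) := by
      rw [← Real.exp_add]; congr 1; ring
    have hJ1 : (∫ u in (V - h)..V, f u * Real.exp (a * u)) ≤ (∫ u in (V - h)..V, f u) * Real.exp (a * V) := by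
      rw [← intervalIntegral.integral_mul_const]
      refine intervalIntegral.integral_mono_on (by linarith) (hie _ _ (by linarith) (by linarith))
        ((hii _ _ (by linarith) (by linarith)).mul_const _) (fun u hu => ?_)
      exact mul_le_mul_of_nonneg_left (Real.exp_le_exp.2 (mul_le_mul_of_nonneg_left hu.2 ha.le)) (hf0 u)
    have hJ2 : (∫ u in (V - h)..V, f u) * Real.exp (a * (V - h)) ≤ ∫ u in (V - h)..V, f u * Real.exp (a * u) := by
      rw [← intervalIntegral.integral_mul_const]
      refine intervalIntegral.integral_mono_on (by linarith)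
        ((hii _ _ (by linarith) (by linarith)).mul_const _) (hie _ _ (by linarith) (by linarith)) (fun u hu => ?_)
      exact mul_le_mul_of_nonneg_left (Real.exp_le_exp.2 (mul_le_mul_of_nonneg_left hu.1 ha.le)) (hf0 u)
    have hp : 0 < Real.exp (a * V) := Real.exp_pos _
    have e3 : (∫ u in (0 : ℝ)..(V - h), f u * Real.exp (a * u)) = F (V - h) * (Real.exp (-(a * h)) * Real.exp (a * V)) := by
      rw [← e2, hF]
      field_simp
    have e4 : F V = (∫ u in (0 : ℝ)..V, f u * Real.exp (a * u)) / Real.exp (a * V) := by rw [hF]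
    constructor
    · rw [e4, div_le_iff₀ hp, e1, e3]
      have e5 : (Real.exp (-(a * h)) * F (V - h) + ∫ u in (V - h)..V, f u) * Real.exp (a * V) =
        F (V - h) * (Real.exp (-(a * h)) * Real.exp (a * V)) + (∫ u in (V - h)..V, f u) * Real.exp (a * V) := by ring
      rw [e5]
      linarith
    · rw [e4, le_div_iff₀ hp, e1, e3]
      rw [e2] at hJ2
      have e5 : (Real.exp (-(a * h)) * F (V - h) + Real.exp (-(a * h)) * ∫ u in (V - h)..V, f u) * Real.exp (a * V) =
        F (V - h) * (Real.exp (-(a * h)) * Real.exp (a * V)) +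
          (∫ u in (V - h)..V, f u) * (Real.exp (-(a * h)) * Real.exp (a * V)) := by ring
      rw [e5]
      linarith
  rw [Metric.tendsto_nhds]
  intro ε hε
  -- the choice of `h`
  have hcont : Tendsto (fun h : ℝ => C / a * Real.exp (a * h)) (𝓝[>] 0) (𝓝 (C / a)) := by
    have h1 : Tendsto (fun h : ℝ => C / a * Real.exp (a * h)) (𝓝 0) (𝓝 (C / a * Real.exp (a * 0))) :=
      Continuous.tendsto (by fun_prop) 0
    rw [mul_zero, Real.exp_zero, mul_one] at h1
    exact h1.mono_left nhdsWithin_le_nhds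
  have hcont2 : Tendsto (fun h : ℝ => C / a * Real.exp (-(a * h))) (𝓝[>] 0) (𝓝 (C / a)) := by
    have h1 : Tendsto (fun h : ℝ => C / a * Real.exp (-(a * h))) (𝓝 0) (𝓝 (C / a * Real.exp (-(a * 0)))) :=
      Continuous.tendsto (by fun_prop) 0
    rw [mul_zero, neg_zero, Real.exp_zero, mul_one] at h1
    exact h1.mono_left nhdsWithin_le_nhds
  obtain ⟨h, ⟨hh1, hh2⟩, hh⟩ := (((hcont.eventually (ge_mem_nhds (show C / a < C / a + ε / 4 by linarith))).and
    (hcont2.eventually (le_mem_nhds (show C / a - ε / 4 < C / a by linarith)))).and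
      (eventually_mem_nhdsWithin)).exists
  have hh0 : 0 < h := hh
  obtain ⟨q, hq⟩ : ∃ q : ℝ, q = Real.exp (-(a * h)) := ⟨_, rfl⟩
  have hah : 0 < a * h := by positivity
  have hq0 : 0 < q := by rw [hq]; exact Real.exp_pos _
  have hq1 : q < 1 := by rw [hq, Real.exp_lt_one_iff]; linarith
  have h1q : 0 < 1 - q := by linarith
  have hqi : Real.exp (a * h) = q⁻¹ := by rw [hq, Real.exp_neg, inv_inv]
  -- `q a h ≤ 1 - q ≤ a h`
  have hqa : q * (a * h) ≤ 1 - q := by
    have h1 := Real.add_one_le_exp (a * h)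
    rw [hqi] at h1
    have h2 := mul_le_mul_of_nonneg_left h1 hq0.le
    rw [mul_inv_cancel₀ hq0.ne'] at h2
    linarith
  have hqb : 1 - q ≤ a * h := by
    have h1 := Real.add_one_le_exp (-(a * h))
    rw [← hq] at h1
    linarith
  have hup : C * h / (1 - q) ≤ C / a + ε / 4 := by
    refine le_trans ?_ hh1
    rw [hqi, div_le_iff₀ h1q]
    have h1 : C / a * q⁻¹ * (q * (a * h)) ≤ C / a * q⁻¹ * (1 - q) :=
      mul_le_mul_of_nonneg_left hqa (by positivity)
    have e : C / a * q⁻¹ * (q * (a * h)) = C * h := by field_simp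
    linarith
  have hlo : C / a - ε / 4 ≤ q * (C * h) / (1 - q) := by
    refine le_trans hh2 ?_
    rw [← hq, le_div_iff₀ h1q]
    have h1 : C / a * q * (1 - q) ≤ C / a * q * (a * h) := mul_le_mul_of_nonneg_left hqb (by positivity)
    have e : C / a * q * (a * h) = q * (C * h) := by field_simp
    linarith
  obtain ⟨δ, hδ⟩ : ∃ δ : ℝ, δ = ε / 4 * (1 - q) := ⟨_, rfl⟩
  have hδ0 : 0 < δ := by rw [hδ]; positivity
  have hI : ∀ᶠ V : ℝ in atTop, |(∫ u in (V - h)..V, f u) - C * h| ≤ δ := by
    have h1 : Tendsto (fun V : ℝ => ∫ u in (V - h)..(V - h + h), f u) atTop (𝓝 (C * h)) :=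
      (hlim h hh0).comp (tendsto_atTop_add_const_right atTop (-h) tendsto_id)
    have h2 := (Metric.tendsto_nhds.1 h1) δ hδ0
    filter_upwards [h2] with V hV
    rw [Real.dist_eq, sub_add_cancel] at hV
    exact hV.le
  obtain ⟨V₁, hV₁⟩ := eventually_atTop.1 hI
  obtain ⟨V₀, hV₀⟩ : ∃ V₀ : ℝ, V₀ = max V₁ h := ⟨_, rfl⟩
  have hV₀1 : V₁ ≤ V₀ := by rw [hV₀]; exact le_max_left _ _
  have hV₀2 : h ≤ V₀ := by rw [hV₀]; exact le_max_right _ _
  have hu := rec_bound F h q (C * h + δ) V₀ (∫ u in (0 : ℝ)..V₀, f u) hh0 hq0.le hq1 (fun V hV => by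
      have h1 := (hsplit h V hh0 (by linarith)).1
      have h2 := (abs_le.1 (hV₁ V (by linarith))).2
      rw [← hq] at h1
      linarith) (fun V h1 h2 => by
      have h3 : 0 ≤ V := by linarith
      have e4 : F V = (∫ u in (0 : ℝ)..V, f u * Real.exp (a * u)) / Real.exp (a * V) := by rw [hF]
      rw [e4, div_le_iff₀ (Real.exp_pos _)]
      have h4 : (∫ u in (0 : ℝ)..V, f u * Real.exp (a * u)) ≤ (∫ u in (0 : ℝ)..V, f u) * Real.exp (a * V) := by
        rw [← intervalIntegral.integral_mul_const]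
        refine intervalIntegral.integral_mono_on h3 (hie _ _ le_rfl h3)
          ((hii _ _ le_rfl h3).mul_const _) (fun u hu => ?_)
        exact mul_le_mul_of_nonneg_left (Real.exp_le_exp.2 (mul_le_mul_of_nonneg_left hu.2 ha.le)) (hf0 u)
      refine h4.trans (mul_le_mul_of_nonneg_right ?_ (Real.exp_pos _).le)
      have h5 := intervalIntegral.integral_add_adjacent_intervals (hii 0 V le_rfl h3) (hii V V₀ h3 h2)
      have h6 : 0 ≤ ∫ u in V..V₀, f u := intervalIntegral.integral_nonneg h2 fun u _ => hf0 u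
      linarith) (ε / 4) (by linarith)
  have hl := rec_bound (fun V => -F V) h q (-(q * (C * h - δ))) V₀ 0 hh0 hq0.le hq1 (fun V hV => by
      have h1 := (hsplit h V hh0 (by linarith)).2
      have h2 := (abs_le.1 (hV₁ V (by linarith))).1
      rw [← hq] at h1
      have h3 : q * (C * h - δ) ≤ q * ∫ u in (V - h)..V, f u := mul_le_mul_of_nonneg_left (by linarith) hq0.le
      change -F V ≤ q * -F (V - h) + -(q * (C * h - δ))
      linarith) (fun V h1 h2 => by
      have := hF0 V (by linarith)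
      change -F V ≤ 0
      linarith) (ε / 4) (by linarith)
  filter_upwards [hu, hl] with V h1 h2
  rw [Real.dist_eq, abs_lt]
  have e1 : (C * h + δ) / (1 - q) = C * h / (1 - q) + ε / 4 := by
    rw [hδ, add_div]
    congr 1
    field_simp
  have e2 : -(q * (C * h - δ)) / (1 - q) = -(q * (C * h) / (1 - q)) + q * (ε / 4) := by
    rw [hδ]
    field_simp
    ring
  rw [e1] at h1
  rw [e2] at h2
  have h3 : q * (ε / 4) ≤ ε / 4 := by nlinarith
  constructor
  · linarith
  · linarith

end Pool.Agent.J4H53.GS
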