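import Pool.Agent.J4H38.GS.Stm5

/-!
# Project GS5, piece (MVE): from `expZeta` to `EE`
-/

set_option autoImplicit false

namespace Pool.Agent.J4H53.GS

open MeasureTheory Set Filter Topology
open scoped ComplexConjugate
open Pool.Agent.J4H38.GS

section one

theorem coe_ne {a : ℝ} (h0 : 0 < a) (h1 : a < 1) : (a : UnitAddCircle) ≠ 0 := by
  intro h
  obtain ⟨n, hn⟩ := (AddCircle.coe_eq_zero_iff (p := (1 : ℝ))).1 h
  rw [zsmul_eq_mul, mul_one] at hn
  rw [← hn] at h0 h1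
  have h2 : 0 < n := by exact_mod_cast h0
  have h3 : n < 1 := by exact_mod_cast h1
  omega

theorem expZeta_cont {a : ℝ} (h0 : 0 < a) (h1 : a < 1) : Continuous (HurwitzZeta.expZeta (a : UnitAddCircle)) :=
  (HurwitzZeta.differentiable_expZeta_of_ne_zero (coe_ne h0 h1)).continuous

theorem AA_ne {w : ℂ} (hw : 0 < w.re) : AA w ≠ 0 := by
  unfold AA
  refine mul_ne_zero (mul_ne_zero ?_ (Complex.Gamma_ne_zero_of_re_pos hw)) (Complex.exp_ne_zero _)
  rw [Ne, Complex.cpow_eq_zero_iff, not_and_or]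
  left
  exact mul_ne_zero two_ne_zero (by exact_mod_cast Real.pi_ne_zero)

theorem AA_cont : ContinuousOn AA {w : ℂ | 0 < w.re} := by
  unfold AA
  refine ContinuousOn.mul (ContinuousOn.mul ?_ ?_) ?_
  · refine Continuous.continuousOn ?_
    refine Continuous.const_cpow continuous_neg (Or.inl ?_)
    exact mul_ne_zero two_ne_zero (by exact_mod_cast Real.pi_ne_zero)
  · intro w hw
    refine (Complex.differentiableAt_Gamma w ?_).continuousAt.continuousWithinAt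
    intro m hm
    have : w.re = -(m : ℝ) := by rw [hm]; simp
    have h2 : 0 < w.re := hw
    have h3 : (0 : ℝ) ≤ m := Nat.cast_nonneg m
    linarith
  · refine Continuous.continuousOn ?_
    fun_prop

theorem EE_cont {a : ℝ} (h0 : 0 < a) (h1 : a < 1) : ContinuousOn (EE a) {w : ℂ | 0 < w.re} := by
  unfold EE
  have hneg : Continuous (HurwitzZeta.expZeta (-(a : UnitAddCircle))) :=
    (HurwitzZeta.differentiable_expZeta_of_ne_zero (neg_ne_zero.2 (coe_ne h0 h1))).continuous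
  refine ContinuousOn.sub (ContinuousOn.add (expZeta_cont h0 h1).continuousOn ?_) ?_
  · refine ContinuousOn.mul ?_ hneg.continuousOn
    refine Continuous.continuousOn ?_
    fun_prop
  · refine ContinuousOn.div ?_ AA_cont (fun w hw => AA_ne hw)
    refine Continuous.continuousOn ?_
    refine Continuous.const_cpow (continuous_id.sub continuous_const) (Or.inl ?_)
    exact_mod_cast h0.ne'

/-- `v e^{-πv} ≤ n! v^{1/2 - x₀}` -/
theorem exp_small (x₀ : ℝ) : ∃ K : ℝ, 0 ≤ K ∧ ∀ v : ℝ, 1 ≤ v → v * Real.exp (-(Real.pi * v)) ≤ K * v ^ (1 / 2 - x₀) := by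
  obtain ⟨n, hn⟩ := exists_nat_ge (x₀ + 1 / 2)
  refine ⟨(n.factorial : ℝ), by positivity, ?_⟩
  intro v hv
  have hv0 : 0 < v := by linarith
  have h1 := Real.pow_div_factorial_le_exp v hv0.le n
  have hf : (0 : ℝ) < n.factorial := by exact_mod_cast n.factorial_pos
  rw [div_le_iff₀ hf] at h1
  have h2 : v ^ (x₀ + 1 / 2) ≤ v ^ n := by
    rw [← Real.rpow_natCast]
    exact Real.rpow_le_rpow_of_exponent_le hv hn
  have h3 : Real.exp (-(Real.pi * v)) ≤ Real.exp (-v) := by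
    rw [Real.exp_le_exp]
    nlinarith [Real.pi_gt_three]
  have h4 : v = v ^ (x₀ + 1 / 2) * v ^ (1 / 2 - x₀) := by
    rw [← Real.rpow_add hv0]
    have : x₀ + 1 / 2 + (1 / 2 - x₀) = 1 := by ring
    rw [this, Real.rpow_one]
  have h5 : v ^ (x₀ + 1 / 2) * Real.exp (-v) ≤ n.factorial := by
    calc v ^ (x₀ + 1 / 2) * Real.exp (-v) ≤ (Real.exp v * n.factorial) * Real.exp (-v) :=
          mul_le_mul_of_nonneg_right (h2.trans h1) (Real.exp_pos _).le
      _ = n.factorial := by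
          rw [mul_right_comm, ← Real.exp_add, add_neg_cancel, Real.exp_zero, one_mul]
  have hp : 0 ≤ v ^ (1 / 2 - x₀) := Real.rpow_nonneg hv0.le _
  calc v * Real.exp (-(Real.pi * v)) ≤ v * Real.exp (-v) := mul_le_mul_of_nonneg_left h3 hv0.le
    _ = v ^ (x₀ + 1 / 2) * v ^ (1 / 2 - x₀) * Real.exp (-v) := by rw [← h4]
    _ = (v ^ (x₀ + 1 / 2) * Real.exp (-v)) * v ^ (1 / 2 - x₀) := by ring
    _ ≤ n.factorial * v ^ (1 / 2 - x₀) := mul_le_mul_of_nonneg_right h5 hp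

theorem diff_bound (h2 : S_L2) (h3 : S_L3) (a : ℝ) (ha0 : 0 < a) (ha1 : a < 1) (x₀ x₁ : ℝ)
    (hx : 1 / 2 < x₀) (_h01 : x₀ ≤ x₁) : ∃ C : ℝ, 0 ≤ C ∧ ∀ w : ℂ, x₀ ≤ w.re → w.re ≤ x₁ → 1 ≤ w.im →
      ‖EE a w - HurwitzZeta.expZeta (a : UnitAddCircle) w‖ ≤ C * w.im ^ (1 / 2 - x₀) := by
  obtain ⟨c, hc, hA⟩ := h2 x₁
  obtain ⟨C3, hC3, hZ⟩ := h3 (-a)
  obtain ⟨K, hK0, hK⟩ := exp_small x₀
  have hx1 : 0 < x₁ := by linarith
  refine ⟨C3 * (x₁ + 1) * K + a ^ (-(1 / 2) : ℝ) / c, by positivity, ?_⟩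
  intro w hw1 hw2 hw3
  obtain ⟨v, hv⟩ : ∃ v : ℝ, v = w.im := ⟨_, rfl⟩
  have hv1 : 1 ≤ v := by rw [hv]; exact hw3
  have hv0 : 0 < v := by linarith
  have e1 : EE a w - HurwitzZeta.expZeta (a : UnitAddCircle) w =
      Complex.exp (Real.pi * Complex.I * w) * HurwitzZeta.expZeta (-(a : UnitAddCircle)) w -
        (a : ℂ) ^ (w - 1) / AA w := by
    unfold EE
    ring
  have n1 : ‖Complex.exp (Real.pi * Complex.I * w)‖ = Real.exp (-(Real.pi * v)) := by
    rw [Complex.norm_exp, hv]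
    congr 1
    simp
  have n2 : ‖HurwitzZeta.expZeta (-(a : UnitAddCircle)) w‖ ≤ C3 * ((x₁ + 1) * v) := by
    have h4 := hZ w (by linarith) hw3
    rw [AddCircle.coe_neg] at h4
    refine h4.trans (mul_le_mul_of_nonneg_left ?_ hC3)
    have h5 := Complex.norm_le_abs_re_add_abs_im w
    rw [abs_of_pos (by linarith : 0 < w.re), abs_of_pos (by linarith : 0 < w.im), ← hv] at h5
    nlinarith
  have n3 : ‖(a : ℂ) ^ (w - 1) / AA w‖ ≤ a ^ (-(1 / 2) : ℝ) / c * v ^ (1 / 2 - x₀) := by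
    rw [norm_div, Complex.norm_cpow_eq_rpow_re_of_pos ha0]
    have h4 : a ^ (w - 1).re ≤ a ^ (-(1 / 2) : ℝ) := by
      apply Real.rpow_le_rpow_of_exponent_ge ha0 ha1.le
      rw [Complex.sub_re, Complex.one_re]
      linarith
    have h5 := hA w (by linarith) hw2 hw3
    rw [← hv] at h5
    have h6 : c * v ^ (x₀ - 1 / 2) ≤ ‖AA w‖ := by
      refine le_trans (mul_le_mul_of_nonneg_left ?_ hc.le) h5
      exact Real.rpow_le_rpow_of_exponent_le hv1 (by linarith)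
    have hp : 0 < v ^ (x₀ - 1 / 2) := Real.rpow_pos_of_pos hv0 _
    have e2 : v ^ (1 / 2 - x₀) = (v ^ (x₀ - 1 / 2))⁻¹ := by
      rw [← Real.rpow_neg hv0.le]
      congr 1
      ring
    have e3 : a ^ (-(1 / 2) : ℝ) / c * v ^ (1 / 2 - x₀) = a ^ (-(1 / 2) : ℝ) / (c * v ^ (x₀ - 1 / 2)) := by
      rw [e2]
      field_simp
    rw [e3]
    exact div_le_div₀ (Real.rpow_nonneg ha0.le _) h4 (by positivity) h6
  rw [e1]
  refine (norm_sub_le _ _).trans ?_
  rw [norm_mul, n1, ← hv, add_mul]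
  refine add_le_add ?_ n3
  calc Real.exp (-(Real.pi * v)) * ‖HurwitzZeta.expZeta (-(a : UnitAddCircle)) w‖
      ≤ Real.exp (-(Real.pi * v)) * (C3 * ((x₁ + 1) * v)) := mul_le_mul_of_nonneg_left n2 (Real.exp_pos _).le
    _ = C3 * (x₁ + 1) * (v * Real.exp (-(Real.pi * v))) := by ring
    _ ≤ C3 * (x₁ + 1) * (K * v ^ (1 / 2 - x₀)) := mul_le_mul_of_nonneg_left (hK v hv1) (by positivity)
    _ = C3 * (x₁ + 1) * K * v ^ (1 / 2 - x₀) := by ring

/-- products of nearly equal factors -/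
theorem prod_near {ι : Type*} (s : Finset ι) (E Z : ι → ℂ) (c η : ℝ) (hη0 : 0 ≤ η) (hη1 : η ≤ 1)
    (hc : 0 ≤ c) (h : ∀ i ∈ s, ‖E i - Z i‖ ≤ c * η) :
    ‖∏ i ∈ s, E i‖ ≤ ∏ i ∈ s, (‖Z i‖ + c) ∧
      ‖(∏ i ∈ s, E i) - ∏ i ∈ s, Z i‖ ≤ η * ∏ i ∈ s, (‖Z i‖ + c) := by
  classical
  induction s using Finset.induction_on with
  | empty => simp [hη0]
  | insert a s ha ih =>
    obtain ⟨ih1, ih2⟩ := ih (fun i hi => h i (Finset.mem_insert_of_mem hi))
    have h1 := h a (Finset.mem_insert_self a s)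
    rw [Finset.prod_insert ha, Finset.prod_insert ha, Finset.prod_insert ha]
    have hP : 0 ≤ ∏ i ∈ s, (‖Z i‖ + c) := Finset.prod_nonneg fun i _ => by positivity
    have h2 : ‖E a‖ ≤ ‖Z a‖ + c := by
      have h3 : ‖E a‖ ≤ ‖Z a‖ + ‖E a - Z a‖ := by
        have := norm_add_le (Z a) (E a - Z a)
        rwa [add_sub_cancel] at this
      have h4 : c * η ≤ c := by nlinarith
      linarith
    constructor
    · rw [norm_mul]
      exact mul_le_mul h2 ih1 (norm_nonneg _) (by positivity)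
    · have e : E a * ∏ i ∈ s, E i - Z a * ∏ i ∈ s, Z i =
          (E a - Z a) * ∏ i ∈ s, E i + Z a * ((∏ i ∈ s, E i) - ∏ i ∈ s, Z i) := by ring
      rw [e]
      refine (norm_add_le _ _).trans ?_
      rw [norm_mul, norm_mul]
      have h5 : ‖E a - Z a‖ * ‖∏ i ∈ s, E i‖ ≤ c * η * ∏ i ∈ s, (‖Z i‖ + c) :=
        mul_le_mul h1 ih1 (norm_nonneg _) (by positivity)
      have h6 : ‖Z a‖ * ‖(∏ i ∈ s, E i) - ∏ i ∈ s, Z i‖ ≤ ‖Z a‖ * (η * ∏ i ∈ s, (‖Z i‖ + c)) :=
        mul_le_mul_of_nonneg_left ih2 (norm_nonneg _)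
      have e2 : η * ((‖Z a‖ + c) * ∏ i ∈ s, (‖Z i‖ + c)) =
          c * η * ∏ i ∈ s, (‖Z i‖ + c) + ‖Z a‖ * (η * ∏ i ∈ s, (‖Z i‖ + c)) := by ring
      rw [e2]
      exact add_le_add h5 h6

end one

section two

variable {k : ℕ}

/-- the majorant -/
noncomputable def Pp (α : Fin k → ℝ) (w : ℂ) : ℝ :=
  ∏ i, (1 + ‖HurwitzZeta.expZeta (α i : UnitAddCircle) w‖)

theorem Pp_nonneg (α : Fin k → ℝ) (w : ℂ) : 0 ≤ Pp α w := Finset.prod_nonneg fun i _ => by positivity

theorem near (h2 : S_L2) (h3 : S_L3) (α : Fin k → ℝ) (hα : ∀ i, 0 < α i ∧ α i < 1) (x₀ x₁ Y : ℝ)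
    (hx : 1 / 2 < x₀) (h01 : x₀ ≤ x₁) (hY : 0 ≤ Y) : ∃ K : ℝ, 1 ≤ K ∧ ∀ j : ℕ, Y + 1 ≤ 2 ^ j →
      ∀ b ∈ box x₀ x₁ Y, ∀ t : ℝ, (2 : ℝ) ^ j ≤ t →
        ‖EP α (b + t * Complex.I)‖ ≤ K * Pp α (b + t * Complex.I) ∧
        ‖DZ α (b + t * Complex.I)‖ ≤ Pp α (b + t * Complex.I) ∧
        ‖EP α (b + t * Complex.I) - DZ α (b + t * Complex.I)‖ ≤
          (2 : ℝ) ^ (j * (-(x₀ - 1 / 2))) * K * Pp α (b + t * Complex.I) := by
  have hd : ∀ i, ∃ C : ℝ, 0 ≤ C ∧ ∀ w : ℂ, x₀ ≤ w.re → w.re ≤ x₁ → 1 ≤ w.im →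
      ‖EE (α i) w - HurwitzZeta.expZeta (α i : UnitAddCircle) w‖ ≤ C * w.im ^ (1 / 2 - x₀) :=
    fun i => diff_bound h2 h3 (α i) (hα i).1 (hα i).2 x₀ x₁ hx h01
  choose C hC0 hC using hd
  have hY1 : 0 < Y + 1 := by linarith
  obtain ⟨c, hc⟩ : ∃ c : ℝ, c = 1 + (∑ i, C i) * (Y + 1) ^ (x₀ - 1 / 2) := ⟨_, rfl⟩
  have hsum0 : 0 ≤ ∑ i, C i := Finset.sum_nonneg fun i _ => hC0 i
  have hYp : 0 ≤ (Y + 1) ^ (x₀ - 1 / 2) := Real.rpow_nonneg hY1.le _
  have hc1 : 1 ≤ c := by rw [hc]; nlinarith [mul_nonneg hsum0 hYp]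
  refine ⟨c ^ k, one_le_pow₀ hc1, ?_⟩
  intro j hj b hb t ht
  obtain ⟨hb1, hb2, hb3⟩ := hb
  obtain ⟨w, hw⟩ : ∃ w : ℂ, w = b + t * Complex.I := ⟨_, rfl⟩
  rw [← hw]
  have hwre : w.re = b.re := by rw [hw]; simp
  have hwim : w.im = b.im + t := by rw [hw]; simp
  have hbim := abs_le.1 hb3
  have h2j : (1 : ℝ) ≤ 2 ^ j := by linarith
  have him1 : 1 ≤ w.im := by rw [hwim]; linarith
  have him2 : (2 : ℝ) ^ j / (Y + 1) ≤ w.im := by
    rw [div_le_iff₀ hY1, hwim]
    have : (2 : ℝ) ^ j - Y ≤ b.im + t := by linarith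
    nlinarith
  have hη : w.im ^ (1 / 2 - x₀) ≤ (Y + 1) ^ (x₀ - 1 / 2) * (2 : ℝ) ^ (j * (-(x₀ - 1 / 2))) := by
    have h4 : w.im ^ (1 / 2 - x₀) ≤ ((2 : ℝ) ^ j / (Y + 1)) ^ (1 / 2 - x₀) :=
      Real.rpow_le_rpow_of_nonpos (by positivity) him2 (by linarith)
    refine h4.trans (le_of_eq ?_)
    rw [Real.div_rpow (by positivity) hY1.le, Real.rpow_natCast_mul (by norm_num : (0:ℝ) ≤ 2)]
    have e1 : (1 / 2 - x₀) = -(x₀ - 1 / 2) := by ring
    rw [e1, Real.rpow_neg hY1.le, div_inv_eq_mul, mul_comm]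
  obtain ⟨η, hηd⟩ : ∃ η : ℝ, η = (2 : ℝ) ^ (j * (-(x₀ - 1 / 2))) := ⟨_, rfl⟩
  rw [← hηd] at hη ⊢
  have hη0 : 0 ≤ η := by rw [hηd]; exact Real.rpow_nonneg (by norm_num) _
  have hη1 : η ≤ 1 := by
    rw [hηd]
    apply Real.rpow_le_one_of_one_le_of_nonpos (by norm_num)
    have : (0 : ℝ) ≤ j := Nat.cast_nonneg j
    nlinarith
  have hnear := prod_near Finset.univ (fun i => EE (α i) w) (fun i => HurwitzZeta.expZeta (α i : UnitAddCircle) w) c η
    hη0 hη1 (by linarith) (fun i _ => by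
      refine (hC i w (by rw [hwre]; exact hb1) (by rw [hwre]; exact hb2) him1).trans ?_
      have h5 : C i ≤ ∑ l, C l := Finset.single_le_sum (fun l _ => hC0 l) (Finset.mem_univ i)
      calc C i * w.im ^ (1 / 2 - x₀) ≤ (∑ l, C l) * ((Y + 1) ^ (x₀ - 1 / 2) * η) :=
            mul_le_mul h5 hη (Real.rpow_nonneg (by linarith) _) hsum0
        _ ≤ c * η := by rw [hc]; nlinarith)
  have hPc : ∏ i, (‖HurwitzZeta.expZeta (α i : UnitAddCircle) w‖ + c) ≤ c ^ k * Pp α w := by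
    have e : c ^ k * Pp α w = ∏ i : Fin k, (c * (1 + ‖HurwitzZeta.expZeta (α i : UnitAddCircle) w‖)) := by
      rw [Finset.prod_mul_distrib, Finset.prod_const, Finset.card_univ, Fintype.card_fin]
      rfl
    rw [e]
    apply Finset.prod_le_prod
    · intro i _
      positivity
    · intro i _
      have : 0 ≤ ‖HurwitzZeta.expZeta (α i : UnitAddCircle) w‖ := norm_nonneg _
      nlinarith
  refine ⟨hnear.1.trans hPc, ?_, ?_⟩
  · unfold DZ Pp
    rw [norm_prod]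
    apply Finset.prod_le_prod
    · intro i _
      exact norm_nonneg _
    · intro i _
      linarith
  · refine hnear.2.trans ?_
    rw [mul_assoc]
    exact mul_le_mul_of_nonneg_left hPc hη0

theorem line_cont (b : ℂ) : Continuous (fun t : ℝ => b + t * Complex.I) := by fun_prop

theorem EP_cont (α : Fin k → ℝ) (hα : ∀ i, 0 < α i ∧ α i < 1) (b : ℂ) (hb : 0 < b.re) :
    Continuous (fun t : ℝ => EP α (b + t * Complex.I)) := by
  unfold EP
  refine continuous_finsetProd _ fun i _ => ?_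
  refine (EE_cont (hα i).1 (hα i).2).comp_continuous (line_cont b) (fun t => ?_)
  change 0 < (b + t * Complex.I).re
  simpa using hb

theorem DZ_cont (α : Fin k → ℝ) (hα : ∀ i, 0 < α i ∧ α i < 1) (b : ℂ) :
    Continuous (fun t : ℝ => DZ α (b + t * Complex.I)) := by
  unfold DZ
  exact continuous_finsetProd _ fun i _ => (expZeta_cont (hα i).1 (hα i).2).comp (line_cont b)

theorem Pp_cont (α : Fin k → ℝ) (hα : ∀ i, 0 < α i ∧ α i < 1) (b : ℂ) :
    Continuous (fun t : ℝ => Pp α (b + t * Complex.I)) := by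
  unfold Pp
  exact continuous_finsetProd _ fun i _ =>
    continuous_const.add ((expZeta_cont (hα i).1 (hα i).2).comp (line_cont b)).norm

theorem Pp_sq (α : Fin k → ℝ) (w : ℂ) :
    ∏ i, (1 + ‖HurwitzZeta.expZeta (α i : UnitAddCircle) w‖) ^ 2 = Pp α w ^ 2 := by
  unfold Pp
  rw [Finset.prod_pow]

theorem ae_pos : ∀ᵐ α ∂(volume.restrict (cube k)), ∀ i : Fin k, 0 < α i ∧ α i < 1 := by
  have hmeas : MeasurableSet (cube k) := MeasurableSet.univ_pi fun _ => measurableSet_Ico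
  have h1 : ∀ᵐ α ∂(volume.restrict (cube k)), ∀ i : Fin k, α i ≠ 0 := by
    apply ae_restrict_of_ae
    rw [ae_all_iff]
    intro i
    exact Measure.ae_eval_ne (μ := fun _ : Fin k => (volume : Measure ℝ)) i 0
  filter_upwards [h1, ae_restrict_mem hmeas] with α h2 h3 i
  have h4 := h3 i (Set.mem_univ i)
  exact ⟨lt_of_le_of_ne h4.1 (Ne.symm (h2 i)), h4.2⟩

end two

/-- (MVE) -/
theorem t_MVE : S_L2 → S_L3 → S_SUB → S_MVD → S_MVE := by
  intro h2 h3 hsub hmvd k x₀ x₁ hx h01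
  obtain ⟨θ, hθ⟩ : ∃ θ : ℝ, θ = x₀ - 1 / 2 := ⟨_, rfl⟩
  have hθ0 : 0 < θ := by rw [hθ]; linarith
  constructor
  · obtain ⟨δ, hδ, hD⟩ := hmvd k x₀ x₁ hx h01
    refine ⟨min δ (θ / 2), lt_min hδ (by linarith), ?_⟩
    filter_upwards [hD, ae_pos, hsub k x₀ x₁ (θ / 2) hx h01 (by linarith)] with α hD hα hS
    intro Y
    by_cases hY : 0 ≤ Y
    swap
    · refine ⟨0, le_rfl, ?_⟩
      intro j _ b hb
      exact absurd ((abs_nonneg _).trans hb.2.2) hY
    obtain ⟨C1, hC1, hD⟩ := hD Y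
    obtain ⟨C2, hC2, hS⟩ := hS Y
    obtain ⟨K, hK1, hK⟩ := near h2 h3 α hα x₀ x₁ Y hx h01 hY
    refine ⟨C1 + 2 * K ^ 2 * C2, by positivity, ?_⟩
    intro j hj b hb T hT1 hT2
    have hbc : conj b ∈ box x₀ x₁ Y := by
      refine ⟨by rw [Complex.conj_re]; exact hb.1, by rw [Complex.conj_re]; exact hb.2.1, ?_⟩
      rw [Complex.conj_im, abs_neg]
      exact hb.2.2
    have hbre : 0 < b.re := by linarith [hb.1]
    have hbcre : 0 < (conj b).re := by rw [Complex.conj_re]; exact hbre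
    have cE := EP_cont α hα b hbre
    have cE' := EP_cont α hα (conj b) hbcre
    have cD := DZ_cont α hα b
    have cD' := DZ_cont α hα (conj b)
    have cP := Pp_cont α hα b
    have cP' := Pp_cont α hα (conj b)
    obtain ⟨η, hη⟩ : ∃ η : ℝ, η = (2 : ℝ) ^ (j * (-(x₀ - 1 / 2))) := ⟨_, rfl⟩
    have hη0 : 0 ≤ η := by rw [hη]; exact Real.rpow_nonneg (by norm_num) _
    have iF : IntervalIntegrable (fun t : ℝ => conj (EP α (conj b + t * Complex.I)) * EP α (b + t * Complex.I))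
        volume (2 ^ j) T := (Continuous.mul (Complex.continuous_conj.comp cE') cE).intervalIntegrable _ _
    have iG : IntervalIntegrable (fun t : ℝ => conj (DZ α (conj b + t * Complex.I)) * DZ α (b + t * Complex.I))
        volume (2 ^ j) T := (Continuous.mul (Complex.continuous_conj.comp cD') cD).intervalIntegrable _ _
    have iB : ∀ S : ℝ, IntervalIntegrable (fun t : ℝ => η * K ^ 2 * (Pp α (conj b + t * Complex.I) ^ 2 + Pp α (b + t * Complex.I) ^ 2))
        volume (2 ^ j) S := fun S => (continuous_const.mul ((cP'.pow 2).add (cP.pow 2))).intervalIntegrable _ _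
    have hdiff : ‖(∫ t in ((2 : ℝ) ^ j)..T, conj (EP α (conj b + t * Complex.I)) * EP α (b + t * Complex.I)) -
        ∫ t in ((2 : ℝ) ^ j)..T, conj (DZ α (conj b + t * Complex.I)) * DZ α (b + t * Complex.I)‖ ≤
        2 * K ^ 2 * C2 * (2 : ℝ) ^ (j * (1 - θ / 2)) := by
      rw [← intervalIntegral.integral_sub iF iG]
      have hb1 : ‖∫ t in ((2 : ℝ) ^ j)..T, (conj (EP α (conj b + t * Complex.I)) * EP α (b + t * Complex.I) -
          conj (DZ α (conj b + t * Complex.I)) * DZ α (b + t * Complex.I))‖ ≤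
          ∫ t in ((2 : ℝ) ^ j)..T, η * K ^ 2 * (Pp α (conj b + t * Complex.I) ^ 2 + Pp α (b + t * Complex.I) ^ 2) := by
        refine intervalIntegral.norm_integral_le_of_norm_le hT1 ?_ (iB T)
        refine Filter.Eventually.of_forall fun t ht => ?_
        have ht1 : (2 : ℝ) ^ j ≤ t := ht.1.le
        obtain ⟨a1, a2, a3⟩ := hK j hj b hb t ht1
        obtain ⟨b1, b2, b3⟩ := hK j hj (conj b) hbc t ht1
        rw [← hη] at a3 b3
        have e : conj (EP α (conj b + t * Complex.I)) * EP α (b + t * Complex.I) -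
            conj (DZ α (conj b + t * Complex.I)) * DZ α (b + t * Complex.I) =
            conj (EP α (conj b + t * Complex.I) - DZ α (conj b + t * Complex.I)) * EP α (b + t * Complex.I) +
            conj (DZ α (conj b + t * Complex.I)) * (EP α (b + t * Complex.I) - DZ α (b + t * Complex.I)) := by
          rw [map_sub]
          ring
        rw [e]
        refine (norm_add_le _ _).trans ?_
        rw [norm_mul, norm_mul, RCLike.norm_conj, RCLike.norm_conj]
        have p1 : 0 ≤ Pp α (b + t * Complex.I) := Pp_nonneg _ _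
        have p2 : 0 ≤ Pp α (conj b + t * Complex.I) := Pp_nonneg _ _
        have q1 : ‖EP α (conj b + t * Complex.I) - DZ α (conj b + t * Complex.I)‖ * ‖EP α (b + t * Complex.I)‖ ≤
            (η * K * Pp α (conj b + t * Complex.I)) * (K * Pp α (b + t * Complex.I)) :=
          mul_le_mul b3 a1 (norm_nonneg _) (by positivity)
        have q2 : ‖DZ α (conj b + t * Complex.I)‖ * ‖EP α (b + t * Complex.I) - DZ α (b + t * Complex.I)‖ ≤
            Pp α (conj b + t * Complex.I) * (η * K * Pp α (b + t * Complex.I)) :=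
          mul_le_mul b2 a3 (norm_nonneg _) p2
        have q3 : Pp α (conj b + t * Complex.I) * (η * K * Pp α (b + t * Complex.I)) ≤
            (η * K * Pp α (conj b + t * Complex.I)) * (K * Pp α (b + t * Complex.I)) := by
          have : 0 ≤ η * K * (Pp α (conj b + t * Complex.I) * Pp α (b + t * Complex.I)) := by positivity
          nlinarith
        have q4 : (η * K * Pp α (conj b + t * Complex.I)) * (K * Pp α (b + t * Complex.I)) +
            (η * K * Pp α (conj b + t * Complex.I)) * (K * Pp α (b + t * Complex.I)) =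
            η * K ^ 2 * (2 * Pp α (conj b + t * Complex.I) * Pp α (b + t * Complex.I)) := by ring
        have q5 : 2 * Pp α (conj b + t * Complex.I) * Pp α (b + t * Complex.I) ≤
            Pp α (conj b + t * Complex.I) ^ 2 + Pp α (b + t * Complex.I) ^ 2 := two_mul_le_add_sq _ _
        have q6 := mul_le_mul_of_nonneg_left q5 (show 0 ≤ η * K ^ 2 by positivity)
        linarith
      have hb2 : (∫ t in ((2 : ℝ) ^ j)..T, η * K ^ 2 * (Pp α (conj b + t * Complex.I) ^ 2 + Pp α (b + t * Complex.I) ^ 2)) ≤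
          ∫ t in ((2 : ℝ) ^ j)..(2 ^ (j + 1)), η * K ^ 2 * (Pp α (conj b + t * Complex.I) ^ 2 + Pp α (b + t * Complex.I) ^ 2) := by
        apply intervalIntegral.integral_mono_interval le_rfl hT1 hT2 _ (iB _)
        refine Filter.Eventually.of_forall fun t => ?_
        change 0 ≤ η * K ^ 2 * (Pp α (conj b + t * Complex.I) ^ 2 + Pp α (b + t * Complex.I) ^ 2)
        positivity
      have hs1 := hS j b hb
      have hs2 := hS j (conj b) hbc
      simp only [Pp_sq] at hs1 hs2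
      have hb3 : (∫ t in ((2 : ℝ) ^ j)..(2 ^ (j + 1)), η * K ^ 2 * (Pp α (conj b + t * Complex.I) ^ 2 + Pp α (b + t * Complex.I) ^ 2)) ≤
          η * K ^ 2 * (2 * (C2 * (2 : ℝ) ^ (j * (1 + θ / 2)))) := by
        have i1 : IntervalIntegrable (fun t : ℝ => Pp α (conj b + t * Complex.I) ^ 2) volume (2 ^ j) (2 ^ (j + 1)) :=
          (cP'.pow 2).intervalIntegrable _ _
        have i2 : IntervalIntegrable (fun t : ℝ => Pp α (b + t * Complex.I) ^ 2) volume (2 ^ j) (2 ^ (j + 1)) :=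
          (cP.pow 2).intervalIntegrable _ _
        rw [intervalIntegral.integral_const_mul, intervalIntegral.integral_add i1 i2]
        exact mul_le_mul_of_nonneg_left (by linarith) (by positivity)
      refine (hb1.trans (hb2.trans hb3)).trans (le_of_eq ?_)
      have e2 : η * (2 : ℝ) ^ (j * (1 + θ / 2)) = (2 : ℝ) ^ (j * (1 - θ / 2)) := by
        rw [hη, ← Real.rpow_add (by norm_num : (0:ℝ) < 2), ← hθ]
        congr 1
        ring
      rw [← e2]
      ring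
    have hmono : ∀ δ' : ℝ, min δ (θ / 2) ≤ δ' → (2 : ℝ) ^ (j * (1 - δ')) ≤ (2 : ℝ) ^ (j * (1 - min δ (θ / 2))) := by
      intro δ' hδ'
      apply Real.rpow_le_rpow_of_exponent_le (by norm_num)
      exact mul_le_mul_of_nonneg_left (by linarith) (Nat.cast_nonneg j)
    have hD' := hD j b hb T hT1 hT2
    have e3 : (∫ t in ((2 : ℝ) ^ j)..T, conj (EP α (conj b + t * Complex.I)) * EP α (b + t * Complex.I)) -
        ((T - 2 ^ j : ℝ) : ℂ) * MM α b =
        ((∫ t in ((2 : ℝ) ^ j)..T, conj (EP α (conj b + t * Complex.I)) * EP α (b + t * Complex.I)) -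
          ∫ t in ((2 : ℝ) ^ j)..T, conj (DZ α (conj b + t * Complex.I)) * DZ α (b + t * Complex.I)) +
        ((∫ t in ((2 : ℝ) ^ j)..T, conj (DZ α (conj b + t * Complex.I)) * DZ α (b + t * Complex.I)) -
          ((T - 2 ^ j : ℝ) : ℂ) * MM α b) := by ring
    rw [e3]
    refine (norm_add_le _ _).trans ?_
    have m1 := mul_le_mul_of_nonneg_left (hmono δ (min_le_left _ _)) hC1
    have m2 := mul_le_mul_of_nonneg_left (hmono (θ / 2) (min_le_right _ _)) (show 0 ≤ 2 * K ^ 2 * C2 by positivity)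
    rw [add_mul]
    linarith
  · intro ε hε
    filter_upwards [ae_pos, hsub k x₀ x₁ ε hx h01 hε] with α hα hS
    intro Y
    by_cases hY : 0 ≤ Y
    swap
    · refine ⟨0, le_rfl, ?_⟩
      intro j _ b hb
      exact absurd ((abs_nonneg _).trans hb.2.2) hY
    obtain ⟨C2, hC2, hS⟩ := hS Y
    obtain ⟨K, hK1, hK⟩ := near h2 h3 α hα x₀ x₁ Y hx h01 hY
    refine ⟨K ^ 2 * C2, by positivity, ?_⟩
    intro j hj b hb
    have hbre : 0 < b.re := by linarith [hb.1]
    have cE := EP_cont α hα b hbre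
    have cP := Pp_cont α hα b
    have hs1 := hS j b hb
    simp only [Pp_sq] at hs1
    have h2j : (2 : ℝ) ^ j ≤ 2 ^ (j + 1) := by
      rw [pow_succ]
      have : (0 : ℝ) < 2 ^ j := by positivity
      linarith
    calc (∫ t in ((2 : ℝ) ^ j)..(2 ^ (j + 1)), ‖EP α (b + t * Complex.I)‖ ^ 2)
        ≤ ∫ t in ((2 : ℝ) ^ j)..(2 ^ (j + 1)), K ^ 2 * Pp α (b + t * Complex.I) ^ 2 := by
          refine intervalIntegral.integral_mono_on h2j ((cE.norm.pow 2).intervalIntegrable _ _)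
            ((continuous_const.mul (cP.pow 2)).intervalIntegrable _ _) (fun t ht => ?_)
          obtain ⟨a1, _, _⟩ := hK j hj b hb t ht.1
          rw [← mul_pow]
          exact pow_le_pow_left₀ (norm_nonneg _) a1 2
      _ = K ^ 2 * ∫ t in ((2 : ℝ) ^ j)..(2 ^ (j + 1)), Pp α (b + t * Complex.I) ^ 2 :=
          intervalIntegral.integral_const_mul _ _
      _ ≤ K ^ 2 * (C2 * (2 : ℝ) ^ (j * (1 + ε))) := mul_le_mul_of_nonneg_left hs1 (by positivity)
      _ = K ^ 2 * C2 * (2 : ℝ) ^ (j * (1 + ε)) := by ring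

end Pool.Agent.J4H53.GS
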